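import Mathlib

/-!
# Cauchy estimates and implicit functions of one complex variable
-/

set_option autoImplicit false

namespace Pool.Agent.TH554.VHC

open Filter Topology Metric Set Asymptotics

/-- Cauchy's estimates on a ball -/
theorem cauchy_ball {U : Set ℂ} {g : ℂ → ℂ} (hg : DifferentiableOn ℂ g U) {z : ℂ} {R B : ℝ}
    (hR : 0 < R) (hU : closedBall z R ⊆ U) (hB : ∀ w ∈ U, ‖g w‖ ≤ B) :
    ‖deriv g z‖ ≤ B / R ∧ ‖deriv (deriv g) z‖ ≤ 2 * B / R ^ 2 := by
  constructor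
  · have h1 := Complex.norm_iteratedDeriv_le_of_forall_mem_sphere_norm_le 1 hR
      (hg.diffContOnCl_ball hU) (fun w hw => hB w (hU (sphere_subset_closedBall hw)))
    rw [iteratedDeriv_one] at h1
    refine h1.trans (le_of_eq ?_)
    simp
  · have h1 := Complex.norm_iteratedDeriv_le_of_forall_mem_sphere_norm_le 2 hR
      (hg.diffContOnCl_ball hU) (fun w hw => hB w (hU (sphere_subset_closedBall hw)))
    rw [iteratedDeriv_succ, iteratedDeriv_one] at h1
    refine h1.trans (le_of_eq ?_)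
    simp [Nat.factorial]

/-- the derivative of an even function vanishes at `0` -/
theorem deriv_even {g : ℂ → ℂ} (h : ∀ᶠ w in 𝓝 (0 : ℂ), g (-w) = g w)
    (hg : DifferentiableAt ℂ g 0) : deriv g 0 = 0 := by
  have h1 : HasDerivAt (fun w => g (-w)) (-deriv g 0) 0 := by
    have h2 : HasDerivAt g (deriv g 0) (-0 : ℂ) := by
      rw [neg_zero]
      exact hg.hasDerivAt
    have h3 := h2.comp (0 : ℂ) (hasDerivAt_neg (0 : ℂ))
    rwa [mul_neg_one] at h3
  have h4 : HasDerivAt g (-deriv g 0) 0 := h1.congr_of_eventuallyEq (h.mono fun w hw => hw.symm)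
  have h5 := h4.deriv
  have h6 : (2 : ℂ) * deriv g 0 = 0 := by linear_combination h5
  rcases mul_eq_zero.1 h6 with h7 | h7
  · norm_num at h7
  · exact h7

/-- the derivative of a function of two variables -/
theorem fderiv_pair {H : ℂ × ℂ → ℂ} (p : ℂ × ℂ) (x y : ℂ) :
    fderiv ℂ H p (x, y) = x * fderiv ℂ H p (1, 0) + y * fderiv ℂ H p (0, 1) := by
  have e : ((x, y) : ℂ × ℂ) = x • ((1, 0) : ℂ × ℂ) + y • ((0, 1) : ℂ × ℂ) := by
    ext <;> simp
  rw [e, map_add, map_smul, map_smul, smul_eq_mul, smul_eq_mul]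

theorem deriv_fst {H : ℂ × ℂ → ℂ} {a b : ℂ} (hH : DifferentiableAt ℂ H (a, b)) :
    HasDerivAt (fun w => H (w, b)) (fderiv ℂ H (a, b) (1, 0)) a :=
  hH.hasFDerivAt.comp_hasDerivAt a ((hasDerivAt_id a).prodMk (hasDerivAt_const a b))

theorem deriv_snd {H : ℂ × ℂ → ℂ} {a b : ℂ} (hH : DifferentiableAt ℂ H (a, b)) :
    HasDerivAt (fun w => H (a, w)) (fderiv ℂ H (a, b) (0, 1)) b :=
  hH.hasFDerivAt.comp_hasDerivAt b ((hasDerivAt_const b a).prodMk (hasDerivAt_id b))

/-- implicit functions which are Lipschitz are differentiable -/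
theorem implicit {H : ℂ × ℂ → ℂ} {z : ℂ → ℂ} {a : ℂ} (hH : DifferentiableAt ℂ H (a, z a))
    (h0 : ∀ᶠ w in 𝓝 a, H (w, z w) = 0) {K : ℝ} (hK : ∀ᶠ w in 𝓝 a, ‖z w - z a‖ ≤ K * ‖w - a‖)
    (h2 : fderiv ℂ H (a, z a) (0, 1) ≠ 0) : DifferentiableAt ℂ z a := by
  have ha : H (a, z a) = 0 := h0.self_of_nhds
  have hzO : (fun w => z w - z a) =O[𝓝 a] fun w => w - a :=
    IsBigO.of_bound K hK
  have hzc : Tendsto z (𝓝 a) (𝓝 (z a)) := by
    have h3 : Tendsto (fun w => z w - z a) (𝓝 a) (𝓝 0) := by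
      refine hzO.trans_tendsto ?_
      have : Tendsto (fun w : ℂ => w - a) (𝓝 a) (𝓝 (a - a)) :=
        (continuous_id.sub continuous_const).tendsto a
      rwa [sub_self] at this
    have h4 := h3.add_const (z a)
    simpa using h4
  have hpair : Tendsto (fun w => (w, z w)) (𝓝 a) (𝓝 (a, z a)) := tendsto_id.prodMk_nhds hzc
  have h5 := hH.hasFDerivAt.isLittleO.comp_tendsto hpair
  have h6 : (fun w => ((w, z w) : ℂ × ℂ) - (a, z a)) =O[𝓝 a] fun w => w - a := by
    have : (fun w => ((w, z w) : ℂ × ℂ) - (a, z a)) = fun w => (w - a, z w - z a) := rfl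
    rw [this]
    exact (isBigO_refl _ _).prod_left hzO
  have h7 := h5.trans_isBigO h6
  obtain ⟨H1, hH1⟩ : ∃ H1, H1 = fderiv ℂ H (a, z a) (1, 0) := ⟨_, rfl⟩
  obtain ⟨H2, hH2⟩ : ∃ H2, H2 = fderiv ℂ H (a, z a) (0, 1) := ⟨_, rfl⟩
  rw [← hH2] at h2
  have h8 : (fun w => z w - z a - (-(H1 / H2)) * (w - a)) =o[𝓝 a] fun w => w - a := by
    have h9 : (fun w => z w - z a - (-(H1 / H2)) * (w - a)) =ᶠ[𝓝 a]
        fun w => (-H2⁻¹) * (H (w, z w) - H (a, z a) -
          fderiv ℂ H (a, z a) ((w, z w) - (a, z a))) := by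
      filter_upwards [h0] with w hw
      have e1 : ((w, z w) : ℂ × ℂ) - (a, z a) = (w - a, z w - z a) := rfl
      rw [hw, ha, e1, fderiv_pair, ← hH1, ← hH2]
      field_simp
      ring
    exact (h7.const_mul_left (-H2⁻¹)).congr' h9.symm EventuallyEq.rfl
  have h10 : HasDerivAt z (-(H1 / H2)) a := by
    rw [hasDerivAt_iff_isLittleO]
    refine h8.congr_left fun w => ?_
    rw [smul_eq_mul]
    ring
  exact h10.differentiableAt

end Pool.Agent.TH554.VHC
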